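import Mathlib
import Pool.Agent.Q47.AB.OvX
import Pool.Agent.TH659.HY.Fun2

/-!
# Generalized logarithms of points of `J × G_m^r` over the field of periods: pairs from two arbitrary dense sets

The functions are the integrals `I_i(t) = ∫_c^t s ^ i / √(f(s)) ds` and the logarithms `log (t + x_i)`; for almost all tuples of algebraic
points of any finite set and arbitrary constants `ξ_i` (for instance the periods of the curve and `π`), every nonconstant polynomial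
value `x` over `ℤ[ξ]` has the property `PGood`: for arbitrary dense sets `A`, `B` of integers the numbers `b x a ^ k c + R_c(a) + y_a`,
`(a, c) ∈ A × B`, are uniformly distributed modulo one with a power saving, at all the scales `M` between `T ^ B` and `T ^ E`.

The proof uses the theorem of helper23 on approximate relations over arbitrary constants at algebraic points (`Q23.AQ.fewR`), the
independence of the functions (`TH659.HY`), a bilinear estimate and an inverse theorem for the sums of Weyl (`Q47/DG/EqdK`).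
-/

set_option autoImplicit false

namespace Pool.Agent.Results.MP_4b482e_nt.PairsFromDenseSets

open Finset Polynomial

/-- Polynomials over two dense sets are uniformly distributed at the scale `M`, with a power saving: for all integers
`b ≠ 0` with `|b| ≤ M ^ κ`, all degrees `1 ≤ k ≤ K`, all integers `H ≥ M ^ η`, ALL sets `A` of integers in `[0, M)` and `B` of
integers in `[0, H)` with `|A| |B| ≥ M ^ (1 - κ) H`, all real numbers `y_a`, all real polynomials `R_c` of degree less than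
`k` and all `0 ≤ u ≤ v ≤ 1`, the number of the pairs `(a, c) ∈ A × B` with the fractional part of
`b x a ^ k c + R_c(a) + y_a` in `[u, v)` is `(v - u) |A| |B|`, up to `|A| |B| M ^ (-κ)`. -/
def PGood (K : ℕ) (η κ : ℝ) (M : ℕ) (x : ℝ) : Prop :=
  ∀ b : ℤ, b ≠ 0 → |(b : ℝ)| ≤ (M : ℝ) ^ κ → ∀ k : ℕ, 1 ≤ k → k ≤ K → ∀ H : ℕ, (M : ℝ) ^ η ≤ H →
    ∀ A B : Finset ℕ, (∀ a ∈ A, a < M) → (∀ c ∈ B, c < H) → (M : ℝ) ^ (1 - κ) * H ≤ #A * #B →
    ∀ (y : ℕ → ℝ) (R : ℕ → ℝ[X]), (∀ c, (R c).degree < k) → ∀ u v : ℝ, 0 ≤ u → u ≤ v → v ≤ 1 →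
      |(#{i ∈ A ×ˢ B | u ≤ Int.fract (b * x * i.1 ^ k * i.2 + (R i.2).eval (i.1 : ℝ) + y i.1) ∧
          Int.fract (b * x * i.1 ^ k * i.2 + (R i.2).eval (i.1 : ℝ) + y i.1) < v} : ℝ) -
        (v - u) * (#A * #B)| ≤ #A * #B * (M : ℝ) ^ (-κ)

theorem pgood_iff (K : ℕ) (η κ : ℝ) (M : ℕ) (x : ℝ) : PGood K η κ M x ↔ Pool.Agent.Q47.DG.PGood K η κ M x := Iff.rfl

/-- The value at `y` of the polynomial `P` whose coefficients are integer polynomials in the numbers `ξ_1, …, ξ_g`. -/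
noncomputable def value {g : ℕ} {τ : Type} (ξ : Fin g → ℝ) (y : τ → ℝ) (P : MvPolynomial τ (MvPolynomial (Fin g) ℤ)) : ℝ :=
  MvPolynomial.eval₂ (MvPolynomial.aeval ξ : MvPolynomial (Fin g) ℤ →ₐ[ℤ] ℝ).toRingHom y P

/-- The polynomials of degree at most `d` in every variable whose coefficients are polynomials in `ξ_1, …, ξ_g` of degree at most
`d` in every variable with integer coefficients of absolute value at most `R`, with a nonconstant coefficient whose value is at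
least `r` in absolute value. -/
def Admissible {g : ℕ} {τ : Type} (ξ : Fin g → ℝ) (d : ℕ) (R r : ℝ) (P : MvPolynomial τ (MvPolynomial (Fin g) ℤ)) : Prop :=
  (∀ j, P.degreeOf j ≤ d) ∧ (∀ e i, (P.coeff e).degreeOf i ≤ d) ∧ (∀ e u, |(((P.coeff e).coeff u : ℤ) : ℝ)| ≤ R) ∧
    ∃ e, e ≠ 0 ∧ r ≤ |MvPolynomial.aeval ξ (P.coeff e)|

/-- The numbers of a number field `F`, with an embedding `ι`, which are in `[a, b]` and are quotients of integers of `F` all of
whose conjugates have absolute value at most `T`. -/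
def IsPoint {F : Type} [Field F] (ι : F →+* ℂ) (a b T : ℝ) (x : F) : Prop :=
  (∃ t : ℝ, a ≤ t ∧ t ≤ b ∧ ι x = t) ∧
    ∃ α β : NumberField.RingOfIntegers F, β ≠ 0 ∧ (∀ φ : F →+* ℂ, ‖φ α‖ ≤ T ∧ ‖φ β‖ ≤ T) ∧ x = α / β

/-- The `n`-tuples `q` of numbers of `X` for which there are an admissible polynomial `P` and an `M` between `T ^ B` and `T ^ E`
such that its value at the numbers `f_i(q_j)` does not have the property `PGood` at the scale `M`. -/
def Exceptional {κ F : Type} [Field F] {g : ℕ} (n : ℕ) (f : κ → ℝ → ℝ) (ι : F →+* ℂ) (X : Finset F) (ξ : Fin g → ℝ)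
    (d K : ℕ) (η A H κ₀ B E T : ℝ) : Set (Fin n → F) :=
  {q | (∀ j, q j ∈ X) ∧
    ∃ P : MvPolynomial (Fin n × κ) (MvPolynomial (Fin g) ℤ), Admissible ξ d (T ^ A) (T ^ (-H)) P ∧
      ∃ M : ℕ, T ^ B ≤ (M : ℝ) ∧ (M : ℝ) ≤ T ^ E ∧ ¬ PGood K η κ₀ M (value ξ (fun z => f z.2 (ι (q z.1)).re) P)}

/-- The assertion for the functions `f_i` on `[a, b]`. -/
def FewExceptions {κ : Type} (f : κ → ℝ → ℝ) (a b : ℝ) : Prop :=
  ∀ (m n g d : ℕ) (H A ε : ℝ), 0 ≤ H → 0 ≤ A → 0 < ε → ∃ B : ℝ, 1 ≤ B ∧ ∀ (K : ℕ) (η : ℝ), 0 < η → ∀ E : ℝ,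
    ∃ κ₀ : ℝ, 0 < κ₀ ∧ ∃ C T₀ : ℝ,
    ∀ (F : Type) [Field F] [NumberField F], Module.finrank ℚ F ≤ m → ∀ (ι : F →+* ℂ) (ξ : Fin g → ℝ) (T : ℝ), T₀ ≤ T →
      (∀ i, |ξ i| ≤ T ^ H) → ∀ X : Finset F, (∀ x ∈ X, IsPoint ι a b T x) →
        (Exceptional n f ι X ξ d K η A H κ₀ B E T).Finite ∧
        ((Exceptional n f ι X ξ d K η A H κ₀ B E T).ncard : ℝ) ≤ C * T ^ ε * (X.card : ℝ) ^ (n - 1)

/-- The functions `I_i(t) = ∫_c^t s^i / √(f(s)) ds`, `i < k`, and `log (t + x_i)`. -/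
noncomputable def functions {r : ℕ} (k : ℕ) (f : ℝ[X]) (c : ℝ) (x : Fin r → ℝ) (z : Fin k ⊕ Fin r) (t : ℝ) : ℝ :=
  match z with
  | Sum.inl i => ∫ s in c..t, s ^ (i : ℕ) / √(f.eval s)
  | Sum.inr i => Real.log (t + x i)

theorem few {κ : Type} [Fintype κ] [DecidableEq κ] (f : κ → ℝ → ℝ) (a b : ℝ)
    (han : ∀ i, AnalyticOnNhd ℝ (f i) (Set.Icc a b)) (hind : Pool.Agent.Y120.AInd f a b) : FewExceptions f a b := by
  intro m n g d H A ε hH hA hε
  obtain ⟨B, hB, h⟩ := Pool.Agent.Q47.AB.badX_count f a b han hind m n g d H A ε hH hA hε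
  refine ⟨B, hB, fun K η hη E => ?_⟩
  obtain ⟨κ₀, C, T₀, hκ₀, hC⟩ := h (PGood K η) (Pool.Agent.Q47.DG.Abs.engine_prod K η hη) E
  refine ⟨κ₀, hκ₀, C, T₀, fun F _ _ hF ι ξ T hT hξ X hX => ?_⟩
  have hsub : Exceptional n f ι X ξ d K η A H κ₀ B E T ⊆ Pool.Agent.Q47.AB.BadX (PGood K η) n g d ι X f (T ^ A) (T ^ (-H)) κ₀ (T ^ B) (T ^ E) ξ := by
    rintro q ⟨hq, P, ⟨hP1, hP2, hP3, hP4⟩, hbad⟩
    exact ⟨hq, P, hP1, hP2, hP3, hP4, hbad⟩
  have hfin := Pool.Agent.Q47.AB.badX_fin (PGood K η) n g d ι X f (T ^ A) (T ^ (-H)) κ₀ (T ^ B) (T ^ E) ξ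
  refine ⟨hfin.subset hsub, le_trans ?_ (hC F hF ι ξ T hT hξ X hX)⟩
  exact_mod_cast Set.ncard_le_ncard hsub hfin

/-- Let `f` be a square-free real polynomial of degree `m ≥ 1`, positive on `[a, b]`, `a < b`, let `c` be in `[a, b]` and let
`x_1, …, x_r` be distinct real numbers with `a + x_i > 0`. The assertion holds for the functions `I_i`, `0 ≤ i ≤ m - 2`, and
`log (t + x_i)`. -/
theorem result {r : ℕ} (f : ℝ[X]) (hf : Squarefree f) (hm : 1 ≤ f.natDegree) (a b c : ℝ) (hab : a < b)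
    (hpos : ∀ t : ℝ, a ≤ t → t ≤ b → 0 < f.eval t) (hc : a ≤ c ∧ c ≤ b) (x : Fin r → ℝ)
    (hx : Function.Injective x) (hxa : ∀ i, 0 < a + x i) : FewExceptions (functions (f.natDegree - 1) f c x) a b := by
  have hpos' : ∀ t ∈ Set.Icc a b, 0 < f.eval t := fun t ht => hpos t ht.1 ht.2
  obtain ⟨ε, hε, hen⟩ := TH659.HY.enlarge f a b hab.le hpos'
  have hen' : ∀ t ∈ Set.Ioo (a - ε) (b + ε), 0 < f.eval t := fun t ht => hen t ⟨ht.1.le, ht.2.le⟩
  have hc' : c ∈ Set.Ioo (a - ε) (b + ε) := ⟨by linarith [hc.1], by linarith [hc.2]⟩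
  have heq : functions (f.natDegree - 1) f c x = TH659.HY.UL (k := f.natDegree - 1) f c x := by
    funext z t
    rcases z with i | i
    · rfl
    · rfl
  rw [heq]
  exact few _ a b
    (fun i t ht => TH659.HY.UL_an f _ _ hen' c hc' x t ⟨by linarith [ht.1], by linarith [ht.2]⟩
      (fun i => by linarith [hxa i, ht.1]) i)
    (fun d => TH659.HY.UL_ind f hf (f.natDegree - 1) r d (by omega) a b hab hpos' c hc x hx hxa)

end Pool.Agent.Results.MP_4b482e_nt.PairsFromDenseSets
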