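import Pool.Agent.Q229.RAE
import Pool.Agent.TH21.MS.PolyLog

/-!
# Exponentials of polynomials in logarithms of ALL rational points near almost every real point

Let `Q_(j,1), …, Q_(j,M)` be real polynomials such that, for every `j`, `c_0 s + ∑ c_k Q_(j,k)` is not constant for integers `c` not
all zero, for instance `s^2, …, s^(M+1)`. For `n`-tuples `q` of positive rational numbers we consider the `n (M + 1) + 1`
numbers `π`, `log q_j` and `exp (Q_(j,k) (log q_j))` (for instance `q_j ^ (log q_j)`); by Schanuel's conjecture they should be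
algebraically independent if the `log q_j` and `Q_(j,k) (log q_j)` are linearly independent over `ℚ` (and the coefficients
algebraic).

The starting file `PolynomialsInLogs` bounds the number of the exceptional tuples of height `T` by `T^(2(n-1)+β)` for some
`β < 2`; with the counting theorem of `Pool.Agent.Y120.RealPolys` (`β` arbitrarily small) and coverings we obtain all rational
points near all real points outside a set of small Hausdorff dimension.
-/

set_option autoImplicit false

open MeasureTheory Filter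

namespace Pool.Agent.Results.MP_4b482e_nt.RationalsNearRealPoints

/-- The `n (M + 1) + 1` numbers `π`, `log q_j` and `exp (Q_(j,k) (log q_j))`. -/
noncomputable def numbers {M n : ℕ} (Q : Fin n → Fin M → Polynomial ℝ) (q : Fin n → ℚ) :
    Option (Fin n × Option (Fin M)) → ℝ
  | none => Real.pi
  | some (j, none) => Real.log (q j)
  | some (j, some k) => Real.exp ((Q j k).eval (Real.log (q j)))

/-- **Theorem.** Let `n ≥ 1` and let the polynomials `Q_(j,k)` be as above; consider the numbers `π`, `log q_j`,
`exp (Q_(j,k) (log q_j))` (domain: `x_j > 0`). Then for every `τ > 0` there is a set `Z ⊂ ℝ^n` of Hausdorff dimension at most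
`2 (n - 1) / τ` (dimension `0` for `n = 1`), and of Lebesgue measure zero if `2 (n - 1) < n τ`, such that for all `x ∉ Z` in the domain,
all `d`, `A`, some `B` and all sufficiently large `T` the following holds for ALL rational points `q` with denominators at most `T`
and `|x_j - q_j| ≤ T ^ (-τ)`: every nonzero integer polynomial of degree at most `d` in each variable with coefficients at
most `T ^ A` takes at these numbers a value larger than `T ^ (-B)` in absolute value. -/
theorem result (M n : ℕ) (hn : 1 ≤ n) (Q : Fin n → Fin M → Polynomial ℝ)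
    (hQ : ∀ (j : Fin n) (c0 : ℤ) (c : Fin M → ℤ),
      (Polynomial.C (c0 : ℝ) * Polynomial.X + ∑ k, Polynomial.C (c k : ℝ) * Q j k).natDegree = 0 → c0 = 0 ∧ c = 0) (τ : ℝ) (hτ : 0 < τ) :
    ∃ Z : Set (Fin n → ℝ), dimH Z ≤ ENNReal.ofReal (2 * ((n : ℝ) - 1) / τ) ∧
      (2 * ((n : ℝ) - 1) < n * τ → volume Z = 0) ∧
      ∀ x : Fin n → ℝ, (∀ j, 0 < x j) → x ∉ Z → ∀ (d : ℕ) (A : ℝ), ∃ B : ℝ, ∀ᶠ T : ℝ in atTop,
        ∀ q : Fin n → ℚ, (∀ j, ((q j).den : ℝ) ≤ T ∧ |x j - q j| ≤ T ^ (-τ)) →
        ∀ P : MvPolynomial (Option (Fin n × Option (Fin M))) ℤ, P ≠ 0 → (∀ z, P.degreeOf z ≤ d) →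
          (∀ u, |((P.coeff u : ℤ) : ℝ)| ≤ T ^ A) → T ^ (-B) < |MvPolynomial.aeval (numbers Q q) P| := by
  refine Pool.Agent.Q229.RA.masterOR hn (fun j i t => Pool.Agent.TH21.MS.up (Q j) i t) (fun _ => Set.Ioi 0)
    (fun _ => isOpen_Ioi) ?_ ?_ (fun q => numbers Q q) (fun _ => rfl) ?_ τ hτ
  · intro j i t ht
    have ht' : (0 : ℝ) < t := ht
    exact Pool.Agent.TH21.MS.up_an (Q j) (t / 2) (by positivity) i t (by
      rw [Set.mem_Ici]
      linarith)
  · intro j a b hab hsub d
    have ha : 0 < a := hsub ⟨le_rfl, hab.le⟩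
    obtain ⟨h, hLB⟩ := Pool.Agent.TH21.MS.LB_up (Q j) (hQ j)
    exact Pool.Agent.TH21.MS.rindep_of_LB (Pool.Agent.TH21.MS.up (Q j)) h a (Pool.Agent.TH21.MS.up_an (Q j) a ha) hLB
      d a b le_rfl hab
  · rintro q hq j (_ | k)
    · rfl
    · rfl

end Pool.Agent.Results.MP_4b482e_nt.RationalsNearRealPoints
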