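import Pool.Agent.Y776.Fam.Main
import Pool.Agent.TH813.EKPer
import Pool.Agent.Q192.QD.Sigma

/-!
# Generalised logarithms in families of semi-abelian varieties, relative to the periods, at points in many number fields

Let `E_z : y² = 4 x³ - g₂(z) x - g₃(z)` be a family of elliptic curves whose invariants are algebraic functions of `z` and
whose `j` is not constant, `P_1, …, P_r` algebraic sections which are independent modulo torsion, and `a_1, …, a_s` algebraic
functions which are multiplicatively independent modulo constants. Let `u_i` be the elliptic logarithms of the `P_i` and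
`N_1, …, N_q` vectors of integers for which the quadratic forms `(∑ N_ki X_i)²` are linearly independent. For the semi-abelian
varieties `G` which are extensions of a power of `E_z` by a torus, with parameters and points built from the `P_i` and `a_k`,
the components of the generalised logarithms of the points are combinations of the numbers `u_i` (first kind), `ζ(u_i)`
(second kind), `log a_k`, `log σ(∑ N_ki u_i)` (third kind, with products of the first and second kind), and the periods of
`G` are combinations of such numbers and of `ω₁, ω₂, η₁`, `2 π i`. The problem asks for a lower bound for the transcendence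
degree of the field of the generalised logarithms over the field of the periods; for algebraic `z` the general conjecture
says that all `3 + 2 r + s + q` numbers `ω₁, ω₂, η₁, u_i, ζ(u_i), log a_k, log σ(∑ N_ki u_i)` are independent over `ℚ(π)`, for
general `z`. So the generalised logarithms of general points are as independent over the periods as possible.

Let `X_1, …, X_n` be **any** finite sets of algebraic numbers of degree at most `m` and height at most `T`, in given
compact sets, and let `φ_j` be the number of the different fields `ℚ(x)`, `x ∈ X_j`. We prove for `n` families as above, equal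
or different, that for all `n`-tuples `(z_1, …, z_n)` in `X_1 × ⋯ × X_n`, with at most

  `C T^ε ∑_j φ_j ∏_(i ≠ j) |X_i|`

exceptions, the `∑ (3 + 2 r_j + s_j + q_j)` numbers of the fibres over `z_1, …, z_n` do not satisfy any (approximate) relation
of degree at most `d` in each variable, whose coefficients are combinations of arbitrary complex numbers `ξ_1, …, ξ_g` (for
instance monomials in `π` and in the periods of further abelian varieties) with coefficients in the integers of the field
`ℚ(z_1, …, z_n)`, of size at most `T^A`. All constants are uniform in the sets `X_j` and in the `ξ_i`.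

In the starting theorem `MP_5d33ca_ag.OneMotiveFamilies` there is one family, all points `z_j` are in one number field, and
all points of this field of height at most `T` are considered.
-/

set_option autoImplicit false

open scoped PeriodPair

namespace Pool.Agent.Results.MP_4b482e_nt.SemiabelianFamilies

/-- The Weierstrass zeta function `ζ(z) = ∑ (1/(z-l) + 1/l + z/l²)`, the sum over the lattice (the summand of `l = 0` is
`1/z`, since `1/0 = 0` in Lean). -/
noncomputable def ζ (L : PeriodPair) (z : ℂ) : ℂ :=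
  ∑' l : L.lattice, (1 / (z - l) + 1 / l + z / l ^ 2)

/-- The Weierstrass sigma function `σ(z) = z ∏ (1 - z/l) exp(z/l + z²/(2 l²))`, the product over the lattice (the factor
of `l = 0` is `1`, since `z/0 = 0` in Lean). -/
noncomputable def σ (L : PeriodPair) (z : ℂ) : ℂ :=
  z * ∏' l : L.lattice, ((1 - z / l) * Complex.exp (z / l + (z / l) ^ 2 / 2))

/-- The function `f` is algebraic over `ℂ(z)` on the set `U`. -/
def Algebraic (U : Set ℂ) (f : ℂ → ℂ) : Prop :=
  ∃ P : MvPolynomial (Fin 2) ℂ, P ≠ 0 ∧ ∀ z ∈ U, MvPolynomial.eval ![z, f z] P = 0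

/-- A family of elliptic curves `ℂ / Λ_z` with points `P_i = (℘(u_i), ℘'(u_i))`, with algebraic functions `exp(l_k)`, and
with branches `S_k` of `log σ(∑ N_ki u_i)`. -/
structure Family (U : Set ℂ) (Λ : ℂ → PeriodPair) {r s q : ℕ} (u : Fin r → ℂ → ℂ) (l : Fin s → ℂ → ℂ)
    (N : Fin q → Fin r → ℤ) (S : Fin q → ℂ → ℂ) : Prop where
  isOpen : IsOpen U
  isPreconnected : IsPreconnected U
  /-- the lattice depends analytically on `z` -/
  analytic₁ : AnalyticOnNhd ℂ (fun z => (Λ z).ω₁) U
  analytic₂ : AnalyticOnNhd ℂ (fun z => (Λ z).ω₂) U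
  /-- the invariants are algebraic functions -/
  algebraic₂ : Algebraic U (fun z => (Λ z).g₂)
  algebraic₃ : Algebraic U (fun z => (Λ z).g₃)
  /-- `j` is not constant: `g₂³` and `g₃²` are linearly independent -/
  nonconstant : ∀ a b : ℂ, (∀ z ∈ U, a * (Λ z).g₂ ^ 3 = b * (Λ z).g₃ ^ 2) → a = 0 ∧ b = 0
  /-- the points are given by analytic functions `u_i`; they are not zero and their coordinates are algebraic -/
  point : ∀ i, AnalyticOnNhd ℂ (u i) U
  point_ne : ∀ i, ∀ z ∈ U, u i z ∉ (Λ z).lattice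
  point_alg : ∀ i, Algebraic U (fun z => ℘[Λ z] (u i z))
  /-- the points are independent modulo torsion -/
  point_ind : ∀ n : Fin r → ℤ, (∀ z ∈ U, ∑ i, (n i : ℂ) * u i z ∈ (Λ z).lattice) → n = 0
  /-- the functions `exp(l_k)` are algebraic -/
  log : ∀ k, AnalyticOnNhd ℂ (l k) U
  log_alg : ∀ k, Algebraic U (fun z => Complex.exp (l k z))
  /-- they are multiplicatively independent modulo constants -/
  log_ind : ∀ (n : Fin s → ℤ) (c : ℂ), (∀ z ∈ U, ∑ k, (n k : ℂ) * l k z = c) → n = 0
  /-- `S_k` is a logarithm of `σ(∑ N_ki u_i)` -/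
  sigma : ∀ k, AnalyticOnNhd ℂ (S k) U
  sigma_exp : ∀ k, ∀ z ∈ U, Complex.exp (S k z) = σ (Λ z) (∑ i, (N k i : ℂ) * u i z)
  /-- the quadratic forms `(∑ N_ki X_i)²` are linearly independent -/
  sigma_ind : ∀ c : Fin q → ℤ, (∀ i j, ∑ k, c k * (N k i * N k j) = 0) → c = 0

/-- The numbers `ω₁, ω₂, η₁ = 2 ζ(ω₁ / 2), u_i, ζ(u_i), l_k, S_k` at the point `z`. -/
noncomputable def numbers (Λ : ℂ → PeriodPair) {r s q : ℕ} (u : Fin r → ℂ → ℂ) (l : Fin s → ℂ → ℂ)
    (S : Fin q → ℂ → ℂ) (z : ℂ) : Fin 3 ⊕ (Fin r ⊕ (Fin r ⊕ (Fin s ⊕ Fin q))) → ℂ :=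
  Sum.elim ![(Λ z).ω₁, (Λ z).ω₂, 2 * ζ (Λ z) ((Λ z).ω₁ / 2)] (Sum.elim (fun i => u i z)
    (Sum.elim (fun i => ζ (Λ z) (u i z)) (Sum.elim (fun k => l k z) (fun k => S k z))))

/-- The algebraic numbers which are zeros of nonzero polynomials of degree at most `m` with integral coefficients of
absolute value at most `T`. -/
def Numbers (m : ℕ) (T : ℝ) : Set ℂ :=
  {x | ∃ P : Polynomial ℤ, P ≠ 0 ∧ P.natDegree ≤ m ∧ (∀ i, |(P.coeff i : ℝ)| ≤ T) ∧ Polynomial.aeval x P = 0}

/-- The algebraic integers of the field generated by `S` all of whose conjugates have absolute value at most `H`. -/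
def Integers (S : Set ℂ) (H : ℝ) : Set ℂ :=
  {c | c ∈ IntermediateField.adjoin ℚ S ∧ IsIntegral ℤ c ∧ ∀ z ∈ (minpoly ℚ c).aroots ℂ, ‖z‖ ≤ H}

/-- The number of the different fields `ℚ(x)`, `x ∈ X`. -/
noncomputable def fields (X : Finset ℂ) : ℕ :=
  Set.ncard {G : IntermediateField ℚ ℂ | ∃ x ∈ X, G = IntermediateField.adjoin ℚ {x}}

/-- The `n`-tuples `x`, `x_j ∈ X_j`, for which there is a polynomial `P` of degree at most `d` in each variable, with
coefficients of the form `∑ ξ_i c_i`, where the `c_i` are integers of the field `ℚ(x_1, …, x_n)` all of whose conjugates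
have absolute value at most `T ^ A`, such that the value of `P` at the numbers `v j (x j) i` is at most `T ^ (-B)` times
the absolute value of some nonzero coefficient of `P`. -/
def Exceptional {n : ℕ} (d : ℕ) {g : ℕ} {J : Fin n → Type} (v : ∀ j, ℂ → J j → ℂ) (X : Fin n → Finset ℂ)
    (ξ : Fin g → ℂ) (A B T : ℝ) : Set (Fin n → ℂ) :=
  {x | (∀ j, x j ∈ X j) ∧ ∃ P : MvPolynomial (Σ j, J j) ℂ, (∀ y, P.degreeOf y ≤ d) ∧
    (∀ s, ∃ c : Fin g → ℂ, (∀ i, c i ∈ Integers (Set.range x) (T ^ A)) ∧ P.coeff s = ∑ i, ξ i * c i) ∧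
    ∃ s₀, P.coeff s₀ ≠ 0 ∧
      ‖MvPolynomial.aeval (fun y : Σ j, J j => v y.1 (x y.1) y.2) P‖ ≤ T ^ (-B) * ‖P.coeff s₀‖}

/-- For `n` families (equal or different) over `U_j`, compact subsets `K_j` of `U_j`, and all `m`, `g`, `d`, `A` and
`ε > 0` there are `B`, `C`, `T₀` such that for all complex numbers `ξ_1, …, ξ_g`, all `T ≥ T₀` and all finite sets
`X_j ⊆ K_j` of algebraic numbers of degree at most `m` and height at most `T` the number of exceptional `n`-tuples in
`X_1 × ⋯ × X_n` is at most `C T^ε ∑_j (number of the fields ℚ(x), x ∈ X_j) ∏_(i ≠ j) |X_i|`. -/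
theorem result {n : ℕ} {r s q : Fin n → ℕ} (U : Fin n → Set ℂ) (Λ : Fin n → ℂ → PeriodPair)
    (u : ∀ j, Fin (r j) → ℂ → ℂ) (l : ∀ j, Fin (s j) → ℂ → ℂ) (N : ∀ j, Fin (q j) → Fin (r j) → ℤ)
    (S : ∀ j, Fin (q j) → ℂ → ℂ) (hU : ∀ j, Family (U j) (Λ j) (u j) (l j) (N j) (S j))
    (K : Fin n → Set ℂ) (hK : ∀ j, IsCompact (K j)) (hKU : ∀ j, K j ⊆ U j) (m g d : ℕ) (A ε : ℝ) (hε : 0 < ε) :
    ∃ B C T₀ : ℝ, ∀ (ξ : Fin g → ℂ) (T : ℝ), T₀ ≤ T → ∀ X : Fin n → Finset ℂ,
      (∀ j, ∀ x ∈ X j, x ∈ K j ∧ x ∈ Numbers m T) →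
      (Exceptional d (fun j => numbers (Λ j) (u j) (l j) (S j)) X ξ A B T).Finite ∧
        ((Exceptional d (fun j => numbers (Λ j) (u j) (l j) (S j)) X ξ A B T).ncard : ℝ) ≤
          C * T ^ ε * ∑ j, (fields (X j) : ℝ) * ∏ i ∈ Finset.univ.erase j, ((X i).card : ℝ) := by
  classical
  have hF : ∀ j, Y776.Fam.Fm (U j) (Λ j) (u j) (l j) (N j) (S j) := fun j =>
    { isOpen := (hU j).isOpen, conn := (hU j).isPreconnected, an₁ := (hU j).analytic₁, an₂ := (hU j).analytic₂
      ni := (hU j).nonconstant, ag2 := (hU j).algebraic₂, ag3 := (hU j).algebraic₃, ua := (hU j).point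
      un := (hU j).point_ne, uw := (hU j).point_alg, ui := (hU j).point_ind, la := (hU j).log
      le := (hU j).log_alg, li := (hU j).log_ind, Sa := (hU j).sigma, Se := (hU j).sigma_exp
      Ni := (hU j).sigma_ind }
  obtain ⟨B, C, T₀, H⟩ := Q192.QD.fields_sigma (η := Fin g) m n d
    (fun j => (hU j).isOpen) (fun j => (hU j).isPreconnected)
    (y := fun j => Y776.Fam.yfam (Λ j) (u j) (l j) (S j))
    (fun j k => Y776.Fam.yfam_an (hF j) k) (fun j t ht => Y776.Fam.fam_locInd (hF j) ht) hK hKU A ε hε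
  refine ⟨B, C, T₀, fun ξ T hT X hX => H ξ T hT X hX _ ?_⟩
  rintro x ⟨hx, P, hPd, hPc, s₀, hs₀, hs⟩
  refine ⟨hx, P, hPd, hPc, s₀, hs₀, ?_⟩
  have hv : (fun y : Σ j, Fin 3 ⊕ (Fin (r j) ⊕ (Fin (r j) ⊕ (Fin (s j) ⊕ Fin (q j)))) =>
      numbers (Λ y.1) (u y.1) (l y.1) (S y.1) (x y.1) y.2) =
      fun y : Σ j, Fin 3 ⊕ (Fin (r j) ⊕ (Fin (r j) ⊕ (Fin (s j) ⊕ Fin (q j)))) =>
        Y776.Fam.yfam (Λ y.1) (u y.1) (l y.1) (S y.1) y.2 (x y.1) := by
    funext y
    obtain ⟨j, i⟩ := y
    rcases i with i | i | i | k | k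
    · fin_cases i
      · rfl
      · rfl
      · exact (Pool.Agent.TH813.Ell.eta_half (Λ j (x j)).ω₁_mem_lattice
          (Pool.Agent.TH813.Ell.half₁ (Λ j (x j)))).symm
    all_goals rfl
  rw [hv] at hs
  exact hs

end Pool.Agent.Results.MP_4b482e_nt.SemiabelianFamilies
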